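import Pool.Agent.H.MP_8dad47_al.C

set_option autoImplicit false

open Pool.Agent.HShift MvPolynomial in
/-- The `i`-th homological shift algebra of a polymatroidal ideal is generated in degrees at
most `i`. -/
theorem Pool.Agent.Results.MP_8dad47_al.Yes.result (K : Type) [Field K] (n : ℕ)
    (I : Ideal (MvPolynomial (Fin n) K)) (hI : IsPolymatroidal I) (i k : ℕ) (hik : i ≤ k) :
    HS i (I ^ (k + 1)) = I * HS i (I ^ k) := by
  obtain ⟨B, hB, rfl⟩ := hI.mc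
  rw [HS_pow hB, HS_pow hB, Ideal.span_mul_span']
  congr 1
  ext g
  simp only [Set.mem_image, Set.mem_ofPred_eq, hB.step hik, Set.mem_mul]
  constructor
  · rintro ⟨_, ⟨b, hb, a, ha, rfl⟩, rfl⟩
    exact ⟨_, ⟨b, hb, rfl⟩, _, ⟨a, ha, rfl⟩, by rw [monomial_mul, one_mul]⟩
  · rintro ⟨_, ⟨b, hb, rfl⟩, _, ⟨a, ha, rfl⟩, rfl⟩
    exact ⟨_, ⟨b, hb, a, ha, rfl⟩, by rw [monomial_mul, one_mul]⟩
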